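import Pool.Agent.K1H73.ON.Stm

set_option autoImplicit false

/-! ON-FOU: Fourier inversion. -/

namespace Pool.Agent.K1H29.ON

open Finset MeasureTheory

theorem orth (n : ℤ) : ∫ θ in (-Real.pi)..Real.pi, Complex.exp ((n : ℂ) * Complex.I * θ) =
    if n = 0 then (2 * Real.pi : ℂ) else 0 := by
  split_ifs with h
  · subst h
    simp
    ring
  · have hc : (n : ℂ) * Complex.I ≠ 0 := mul_ne_zero (by exact_mod_cast h) Complex.I_ne_zero
    rw [integral_exp_mul_complex hc]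
    have : Complex.exp ((n : ℂ) * Complex.I * (Real.pi : ℝ)) =
        Complex.exp ((n : ℂ) * Complex.I * ((-Real.pi : ℝ))) := by
      rw [Complex.exp_eq_exp_iff_exists_int]
      exact ⟨n, by push_cast; ring⟩
    rw [this, sub_self, zero_div]

theorem norm_one_sub (θ : ℝ) :
    ‖1 - Complex.exp (-(2 * Complex.I * θ))‖ = 2 * |Real.sin θ| := by
  have h := Complex.norm_exp_I_mul_ofReal_sub_one (-2 * θ)
  have e : Complex.exp (Complex.I * ((-2 * θ : ℝ) : ℂ)) - 1 =
      -(1 - Complex.exp (-(2 * Complex.I * θ))) := by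
    rw [neg_sub]
    congr 2
    push_cast
    ring
  rw [e, norm_neg] at h
  rw [h]
  have e2 : -2 * θ / 2 = -θ := by ring
  rw [e2, Real.sin_neg, Real.norm_eq_abs, abs_mul, abs_neg]
  norm_num

theorem pow_exp (r : ℕ) (c u : ℝ) (hc : 0 < c) (hu : 0 ≤ u) :
    (2 * u) ^ r ≤ (1 + (8 / c) ^ r * r.factorial) * Real.exp (c * u ^ 2 / 2) := by
  have h0 : 0 ≤ c * u ^ 2 / 2 := by positivity
  have h1 : (c * u ^ 2 / 2) ^ r ≤ r.factorial * Real.exp (c * u ^ 2 / 2) := by
    have := Real.pow_div_factorial_le_exp _ h0 r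
    have hf : (0 : ℝ) < r.factorial := by exact_mod_cast r.factorial_pos
    rw [div_le_iff₀ hf] at this
    linarith
  have h2 : ((2 * u) ^ r) ^ 2 = (8 / c) ^ r * (c * u ^ 2 / 2) ^ r := by
    rw [← mul_pow, ← pow_mul, mul_comm r 2, pow_mul]
    congr 1
    field_simp
    ring
  have h3 : (2 * u) ^ r ≤ 1 + ((2 * u) ^ r) ^ 2 := by nlinarith [sq_nonneg ((2 * u) ^ r - 1)]
  have h4 : (1 : ℝ) ≤ Real.exp (c * u ^ 2 / 2) := Real.one_le_exp h0
  calc (2 * u) ^ r ≤ 1 + (8 / c) ^ r * (c * u ^ 2 / 2) ^ r := by rw [← h2]; exact h3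
    _ ≤ 1 * Real.exp (c * u ^ 2 / 2) +
        (8 / c) ^ r * (r.factorial * Real.exp (c * u ^ 2 / 2)) := by
      gcongr
      rw [one_mul]; exact h4
    _ = _ := by ring

theorem ptw (r : ℕ) (c s : ℝ) (K : ℕ) (hc : 0 < c) (hc1 : c ≤ 1) (hs : s ^ 2 ≤ 1) (hK : 1 ≤ K) :
    (2 * |s|) ^ r * (1 - c * s ^ 2) ^ K ≤
      (1 + (8 / c) ^ r * r.factorial) * (Real.sqrt K ^ r)⁻¹ *
        Real.exp (-(c * K / 2) * s ^ 2) := by
  have hK0 : (0 : ℝ) < K := by exact_mod_cast hK
  have hκ : 0 < Real.sqrt K := Real.sqrt_pos.mpr hK0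
  have h1 : (1 - c * s ^ 2) ^ K ≤ Real.exp (-(c * K) * s ^ 2) := by
    have h2 : 1 - c * s ^ 2 ≤ Real.exp (-(c * s ^ 2)) := by
      have := Real.add_one_le_exp (-(c * s ^ 2)); linarith
    calc (1 - c * s ^ 2) ^ K ≤ (Real.exp (-(c * s ^ 2))) ^ K :=
          pow_le_pow_left₀ (by nlinarith [sq_nonneg s]) h2 K
      _ = Real.exp (-(c * K) * s ^ 2) := by
          rw [← Real.exp_nat_mul]; congr 1; ring
  have h3 := pow_exp r c (Real.sqrt K * |s|) hc (by positivity)
  have h4 : (Real.sqrt K * |s|) ^ 2 = K * s ^ 2 := by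
    rw [mul_pow, Real.sq_sqrt hK0.le, sq_abs]
  rw [h4] at h3
  have h5 : (2 * |s|) ^ r = (2 * (Real.sqrt K * |s|)) ^ r * (Real.sqrt K ^ r)⁻¹ := by
    have h6 : (2 * (Real.sqrt K * |s|)) ^ r = Real.sqrt K ^ r * (2 * |s|) ^ r := by
      rw [← mul_pow]
      congr 1
      ring
    rw [h6, mul_comm (Real.sqrt K ^ r), mul_assoc, mul_inv_cancel₀ (pow_pos hκ r).ne', mul_one]
  calc (2 * |s|) ^ r * (1 - c * s ^ 2) ^ K
      ≤ ((1 + (8 / c) ^ r * r.factorial) * Real.exp (c * (K * s ^ 2) / 2) *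
          (Real.sqrt K ^ r)⁻¹) * Real.exp (-(c * K) * s ^ 2) := by
        rw [h5]
        gcongr
        exact pow_nonneg (by nlinarith [sq_nonneg s]) K
    _ = (1 + (8 / c) ^ r * r.factorial) * (Real.sqrt K ^ r)⁻¹ *
        (Real.exp (c * (K * s ^ 2) / 2) * Real.exp (-(c * K) * s ^ 2)) := by ring
    _ = _ := by
        rw [← Real.exp_add]
        congr 2
        ring

theorem gauss (b : ℝ) (hb : 0 < b) :
    ∫ θ in (-Real.pi)..Real.pi, Real.exp (-b * Real.sin θ ^ 2) ≤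
      2 * Real.sqrt (Real.pi / (b * (4 / Real.pi ^ 2))) := by
  have hcont : Continuous fun θ : ℝ => Real.exp (-b * Real.sin θ ^ 2) := by fun_prop
  have hper : Function.Periodic (fun θ : ℝ => Real.exp (-b * Real.sin θ ^ 2)) Real.pi := by
    intro θ
    simp only [Real.sin_add_pi, neg_sq]
  have h1 := hper.intervalIntegral_add_eq (-Real.pi) (-(Real.pi / 2))
  have h2 := hper.intervalIntegral_add_eq 0 (-(Real.pi / 2))
  have e1 : -Real.pi + Real.pi = 0 := by ring
  have e2 : -(Real.pi / 2) + Real.pi = Real.pi / 2 := by ring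
  rw [e1, e2] at h1
  rw [e2, zero_add] at h2
  rw [← intervalIntegral.integral_add_adjacent_intervals
    (hcont.intervalIntegrable (-Real.pi) 0) (hcont.intervalIntegrable 0 Real.pi), h1, h2]
  have hpi := Real.pi_pos
  have hb' : 0 < b * (4 / Real.pi ^ 2) := by positivity
  have h3 : ∫ θ in (-(Real.pi / 2))..(Real.pi / 2), Real.exp (-b * Real.sin θ ^ 2) ≤
      ∫ θ in (-(Real.pi / 2))..(Real.pi / 2), Real.exp (-(b * (4 / Real.pi ^ 2)) * θ ^ 2) := by
    refine intervalIntegral.integral_mono_on (by linarith) (hcont.intervalIntegrable _ _)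
      (Continuous.intervalIntegrable (by fun_prop) _ _) fun θ hθ => ?_
    apply Real.exp_le_exp.mpr
    have h5 : 2 / Real.pi * |θ| ≤ |Real.sin θ| := Real.mul_abs_le_abs_sin (abs_le.mpr hθ)
    have h6 : (2 / Real.pi * |θ|) ^ 2 ≤ |Real.sin θ| ^ 2 :=
      pow_le_pow_left₀ (by positivity) h5 2
    rw [mul_pow, sq_abs, sq_abs, div_pow] at h6
    norm_num at h6 ⊢
    nlinarith
  have h4 : ∫ θ in (-(Real.pi / 2))..(Real.pi / 2),
      Real.exp (-(b * (4 / Real.pi ^ 2)) * θ ^ 2) ≤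
      Real.sqrt (Real.pi / (b * (4 / Real.pi ^ 2))) := by
    rw [← integral_gaussian, intervalIntegral.integral_of_le (by linarith)]
    exact setIntegral_le_integral (integrable_exp_neg_mul_sq hb')
      (Filter.Eventually.of_forall fun x => (Real.exp_pos _).le)
  linarith

theorem t_FOU : Pool.Agent.K1H73.ON.FOU := by
  intro r c hc hc1
  set M : ℝ := 1 + (8 / c) ^ r * r.factorial with hM
  have hM0 : 0 < M := by positivity
  have hpi := Real.pi_pos
  refine ⟨M / Real.pi * Real.sqrt (Real.pi / (c / 2 * (4 / Real.pi ^ 2))), ?_⟩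
  intro α Ω g l Z K hZ hK hS j
  have hK0 : (0 : ℝ) < K := by exact_mod_cast hK
  have hκ : 0 < Real.sqrt K := Real.sqrt_pos.mpr hK0
  set T : ℂ := ∑ i ∈ Finset.range (r + 1), (-1 : ℂ) ^ i * (r.choose i : ℂ) *
      ∑ ω ∈ Ω, (if (l ω : ℤ) = j + 2 * i then g ω else 0) with hT
  -- the integral
  let F : ℝ → ℂ := fun θ => Complex.exp (-((j : ℂ) * Complex.I * θ)) *
    (1 - Complex.exp (-(2 * Complex.I * θ))) ^ r *
    ∑ ω ∈ Ω, g ω * Complex.exp (θ * l ω * Complex.I)
  have hF : ∀ θ : ℝ, F θ = ∑ i ∈ Finset.range (r + 1), ∑ ω ∈ Ω,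
      ((-1 : ℂ) ^ i * (r.choose i : ℂ) * g ω) *
        Complex.exp ((((l ω : ℤ) - (j + 2 * i) : ℤ) : ℂ) * Complex.I * θ) := by
    intro θ
    have e1 : (1 - Complex.exp (-(2 * Complex.I * θ))) ^ r =
        ∑ i ∈ Finset.range (r + 1), (-1 : ℂ) ^ i * (r.choose i : ℂ) *
          Complex.exp (-(2 * i * Complex.I * θ)) := by
      have : (1 - Complex.exp (-(2 * Complex.I * θ))) =
          (-Complex.exp (-(2 * Complex.I * θ)) + 1) := by ring
      rw [this, add_pow]
      refine Finset.sum_congr rfl fun i _ => ?_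
      rw [neg_pow, ← Complex.exp_nat_mul, one_pow]
      have e3 : (i : ℂ) * -(2 * Complex.I * θ) = -(2 * i * Complex.I * θ) := by ring
      rw [e3]
      ring
    simp only [F]
    rw [e1, Finset.mul_sum (Finset.range (r + 1)), Finset.sum_mul]
    refine Finset.sum_congr rfl fun i _ => ?_
    rw [Finset.mul_sum]
    refine Finset.sum_congr rfl fun ω _ => ?_
    have e4 : Complex.exp ((((l ω : ℤ) - (j + 2 * i) : ℤ) : ℂ) * Complex.I * θ) =
        Complex.exp (-((j : ℂ) * Complex.I * θ)) * Complex.exp (-(2 * i * Complex.I * θ)) *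
          Complex.exp (θ * l ω * Complex.I) := by
      rw [← Complex.exp_add, ← Complex.exp_add]
      congr 1
      push_cast
      ring
    rw [e4]
    ring
  have hint : ∫ θ in (-Real.pi)..Real.pi, F θ = 2 * Real.pi * T := by
    have e1 : ∫ θ in (-Real.pi)..Real.pi, F θ = ∫ θ in (-Real.pi)..Real.pi,
        ∑ i ∈ Finset.range (r + 1), ∑ ω ∈ Ω, ((-1 : ℂ) ^ i * (r.choose i : ℂ) * g ω) *
        Complex.exp ((((l ω : ℤ) - (j + 2 * i) : ℤ) : ℂ) * Complex.I * θ) := by
      congr 1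
      funext θ
      exact hF θ
    rw [e1, intervalIntegral.integral_finsetSum]
    · rw [hT, Finset.mul_sum]
      refine Finset.sum_congr rfl fun i _ => ?_
      rw [intervalIntegral.integral_finsetSum]
      · rw [Finset.mul_sum, Finset.mul_sum]
        refine Finset.sum_congr rfl fun ω _ => ?_
        rw [intervalIntegral.integral_const_mul, orth]
        by_cases h : (l ω : ℤ) = j + 2 * i
        · rw [if_pos (by linarith), if_pos h]
          ring
        · rw [if_neg (by intro h'; exact h (by linarith)), if_neg h]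
          ring
      · intro ω _
        exact Continuous.intervalIntegrable (by fun_prop) _ _
    · intro i _
      exact Continuous.intervalIntegrable (by fun_prop) _ _
  have hbound : ‖∫ θ in (-Real.pi)..Real.pi, F θ‖ ≤ ∫ θ in (-Real.pi)..Real.pi,
      (M * (Real.sqrt K ^ r)⁻¹ * Z) * Real.exp (-(c * K / 2) * Real.sin θ ^ 2) := by
    refine intervalIntegral.norm_integral_le_of_norm_le (by linarith)
      (Filter.Eventually.of_forall fun θ _ => ?_)
      (Continuous.intervalIntegrable (by fun_prop) _ _)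
    simp only [F]
    rw [norm_mul, norm_mul, norm_pow, norm_one_sub]
    have e1 : ‖Complex.exp (-((j : ℂ) * Complex.I * θ))‖ = 1 := by
      have : -((j : ℂ) * Complex.I * θ) = ((-(j * θ) : ℝ) : ℂ) * Complex.I := by
        push_cast; ring
      rw [this, Complex.norm_exp_ofReal_mul_I]
    rw [e1, one_mul]
    have h1 := hS θ
    have h2 := ptw r c (Real.sin θ) K hc hc1 (Real.sin_sq_le_one θ) hK
    calc (2 * |Real.sin θ|) ^ r * ‖∑ ω ∈ Ω, g ω * Complex.exp (θ * l ω * Complex.I)‖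
        ≤ (2 * |Real.sin θ|) ^ r * ((1 - c * Real.sin θ ^ 2) ^ K * Z) :=
          mul_le_mul_of_nonneg_left h1 (by positivity)
      _ = ((2 * |Real.sin θ|) ^ r * (1 - c * Real.sin θ ^ 2) ^ K) * Z := by ring
      _ ≤ (M * (Real.sqrt K ^ r)⁻¹ * Real.exp (-(c * K / 2) * Real.sin θ ^ 2)) * Z :=
          mul_le_mul_of_nonneg_right h2 hZ
      _ = _ := by ring
  rw [hint, intervalIntegral.integral_const_mul] at hbound
  have hg := gauss (c * K / 2) (by positivity)
  have hnorm : ‖(2 * Real.pi * T : ℂ)‖ = 2 * Real.pi * ‖T‖ := by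
    rw [norm_mul, norm_mul, Complex.norm_real, Real.norm_of_nonneg hpi.le]
    norm_num
  rw [hnorm] at hbound
  have hsq : Real.sqrt (Real.pi / (c * K / 2 * (4 / Real.pi ^ 2))) =
      Real.sqrt (Real.pi / (c / 2 * (4 / Real.pi ^ 2))) * (Real.sqrt K)⁻¹ := by
    rw [← Real.sqrt_inv, ← Real.sqrt_mul (by positivity)]
    congr 1
    field_simp
  rw [hsq] at hg
  have hpow : (K : ℝ) ^ (-((r : ℝ) + 1) / 2) = (Real.sqrt K ^ r)⁻¹ * (Real.sqrt K)⁻¹ := by
    rw [← mul_inv, ← pow_succ, Real.sqrt_eq_rpow, ← Real.rpow_natCast, ← Real.rpow_mul hK0.le,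
      ← Real.rpow_neg hK0.le]
    congr 1
    push_cast
    ring
  rw [hpow]
  have hA : 0 ≤ M * (Real.sqrt K ^ r)⁻¹ * Z := by positivity
  have h5 : 2 * Real.pi * ‖T‖ ≤ (M * (Real.sqrt K ^ r)⁻¹ * Z) *
      (2 * (Real.sqrt (Real.pi / (c / 2 * (4 / Real.pi ^ 2))) * (Real.sqrt K)⁻¹)) :=
    hbound.trans (mul_le_mul_of_nonneg_left hg hA)
  have h6 : ‖T‖ = (2 * Real.pi)⁻¹ * (2 * Real.pi * ‖T‖) := by field_simp
  rw [h6]
  refine (mul_le_mul_of_nonneg_left h5 (by positivity)).trans (le_of_eq ?_)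
  field_simp

end Pool.Agent.K1H29.ON
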